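import Pool.Agent.helper16.LW.Spec
import Pool.Agent.helper46.ZD.RFS
import Pool.Agent.helper59.DM.DV

/-!
# Project lw (MP_4467b5_nt), module K1: the quadratic sum with the weights `F0`
-/

set_option autoImplicit false

open Complex MeasureTheory
open scoped ComplexOrder

namespace Pool.Agent.LW

open Pool.Agent.ZD Pool.Agent.helper84.DM Pool.Agent.helper78.ED Pool.Agent.DH

theorem K1_kint (J z : ℝ) (hJ : 0 < J) : J * ∫ a in (-5 : ℝ)..5, kap (J * (a - z)) ≤ 4 := by
  have h := intervalIntegral.integral_comp_mul_sub (a := -5) (b := 5) (fun x => kap x) hJ.ne' (J * z)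
  have h1 : ∫ a in (-5 : ℝ)..5, kap (J * (a - z)) = ∫ a in (-5 : ℝ)..5, kap (J * a - J * z) := by
    apply intervalIntegral.integral_congr
    intro a _
    simp only
    rw [mul_sub]
  rw [h1, h, smul_eq_mul, ← mul_assoc, mul_inv_cancel₀ hJ.ne', one_mul]
  unfold kap
  rw [integral_one_div_one_add_sq]
  have h2 := Real.arctan_lt_pi_div_two (J * 5 - J * z)
  have h3 := Real.neg_pi_div_two_lt_arctan (J * (-5) - J * z)
  have h4 := Real.pi_le_four
  linarith

/-- the sum over `n, n'` -/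
noncomputable def K1_R (J N : ℕ) (t : ℝ) : ℝ :=
  ∑ n ∈ Finset.Ioc N (2 * N), ∑ n' ∈ Finset.Ioc N (2 * N),
    kap (J * (t - (Real.log n - Real.log n')))

/-- the sum over `m, m'` -/
noncomputable def K1_S (X : ℝ) (M : ℕ) (t : ℝ) : ℝ :=
  ∑ m ∈ MM M, ∑ m' ∈ MM M, kap (X * ((m : ℝ) * Real.exp t - m'))

theorem K1_Rcont (J N : ℕ) : Continuous (K1_R J N) := by
  have hk := RFS_kap_cont
  unfold K1_R
  apply continuous_finsetSum
  intro n _
  apply continuous_finsetSum
  intro n' _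
  exact hk.comp (by fun_prop)

theorem K1_Scont (X : ℝ) (M : ℕ) : Continuous (K1_S X M) := by
  have hk := RFS_kap_cont
  unfold K1_S
  apply continuous_finsetSum
  intro n _
  apply continuous_finsetSum
  intro n' _
  exact hk.comp (by fun_prop)

theorem K1_Rnn (J N : ℕ) (t : ℝ) : 0 ≤ K1_R J N t :=
  Finset.sum_nonneg fun _ _ => Finset.sum_nonneg fun _ _ => RFS_kap_nonneg _

theorem K1_Snn (X : ℝ) (M : ℕ) (t : ℝ) : 0 ≤ K1_S X M t :=
  Finset.sum_nonneg fun _ _ => Finset.sum_nonneg fun _ _ => RFS_kap_nonneg _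

theorem K1_step1 (hF : FEJ_stmt) (hR : RF0_stmt) (hQ : QDW_stmt) (hG : GEC_stmt) (hK : K2B_stmt) :
    ∃ C : ℝ, 0 < C ∧ ∀ (J N M : ℕ) (X u : ℝ) (a : ℕ → ℂ), 1 ≤ N → 1 ≤ J → Co N a →
    ∑ j ∈ IJ J, F0 J N a j * ‖Bs X M (u - j)‖ ^ 2 ≤
      C * ∫ t in (-5 : ℝ)..5, (J * K1_R J N t) * (X ^ 2 * K1_S X M t) := by
  obtain ⟨hF1, hF2, C1, hC1, hF3⟩ := hF
  obtain ⟨C2, hC2, hK⟩ := hK
  refine ⟨C1 * C2, by positivity, ?_⟩
  intro J N M X u a hN hJ ha
  obtain ⟨hGc, hG0, hGB⟩ := hG X M
  set K : ℝ → ℂ := fun t => ∫ y : ℝ, GE X M (y + t) * (starRingEnd ℂ) (GE X M y) with hKd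
  have hq := hQ (GE X M) hGc hG0 J (F0 J N a) u
  have hJr : (1 : ℝ) ≤ J := by exact_mod_cast hJ
  have hsum : (∑ j ∈ IJ J, F0 J N a j * ‖Bs X M (u - j)‖ ^ 2) =
      ∑ j ∈ IJ J, F0 J N a j *
      ‖∫ x : ℝ, GE X M x * Complex.exp (-((((u - (j : ℝ)) * x : ℝ) : ℂ) * I))‖ ^ 2 := by
    apply Finset.sum_congr rfl
    intro t _
    rw [hGB]
  have hnn : 0 ≤ ∑ j ∈ IJ J, F0 J N a j * ‖Bs X M (u - j)‖ ^ 2 := by
    apply Finset.sum_nonneg
    intro j hj
    have := (hF2 J j hj).1
    unfold F0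
    positivity
  have hrF : ∀ t : ℝ, |t| ≤ 5 → ‖rF J (F0 J N a) t‖ ≤ C1 * (J * K1_R J N t) := by
    intro t ht
    refine (hR J N a t hJ ha).trans ?_
    unfold K1_R
    rw [← mul_assoc, Finset.mul_sum]
    apply Finset.sum_le_sum
    intro n hn
    rw [Finset.mul_sum]
    apply Finset.sum_le_sum
    intro n' hn'
    apply hF3 J _ hJ
    rw [Finset.mem_Ioc] at hn hn'
    have hN0 : (0 : ℝ) < N := by exact_mod_cast hN
    have a1 : Real.log N ≤ Real.log n := Real.log_le_log hN0 (by exact_mod_cast hn.1.le)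
    have a2 : Real.log n ≤ Real.log (2 * N) := by
      apply Real.log_le_log
      · have : (N : ℝ) < n := by exact_mod_cast hn.1
        linarith
      · exact_mod_cast hn.2
    have b1 : Real.log N ≤ Real.log n' := Real.log_le_log hN0 (by exact_mod_cast hn'.1.le)
    have b2 : Real.log n' ≤ Real.log (2 * N) := by
      apply Real.log_le_log
      · have : (N : ℝ) < n' := by exact_mod_cast hn'.1
        linarith
      · exact_mod_cast hn'.2
    rw [Real.log_mul (by norm_num) hN0.ne'] at a2 b2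
    have h2 := Real.log_two_lt_d9
    rw [abs_le] at ht ⊢
    constructor <;> linarith [ht.1, ht.2]
  have hcont : Continuous (fun t : ℝ => (C1 * (J * K1_R J N t)) * (C2 * X ^ 2 * K1_S X M t)) := by
    have h1 := K1_Rcont J N
    have h2 := K1_Scont X M
    fun_prop
  have hn : (∑ j ∈ IJ J, F0 J N a j * ‖Bs X M (u - j)‖ ^ 2) =
      ‖∫ t : ℝ, Complex.exp (-(((u * t : ℝ) : ℂ) * I)) * rF J (F0 J N a) t * K t‖ := by
    rw [← hq, ← hsum, Complex.norm_real, Real.norm_of_nonneg hnn]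
  have hbound : (∑ j ∈ IJ J, F0 J N a j * ‖Bs X M (u - j)‖ ^ 2) ≤
      ∫ t in (-5 : ℝ)..5, (C1 * (J * K1_R J N t)) * (C2 * X ^ 2 * K1_S X M t) := by
    rw [hn, intervalIntegral.integral_of_le (by norm_num),
      ← MeasureTheory.integral_Icc_eq_integral_Ioc,
      ← MeasureTheory.integral_indicator measurableSet_Icc]
    apply MeasureTheory.norm_integral_le_of_norm_le
    · rw [MeasureTheory.integrable_indicator_iff measurableSet_Icc]
      exact hcont.continuousOn.integrableOn_compact isCompact_Icc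
    · apply Filter.Eventually.of_forall
      intro t
      obtain ⟨hz, hb⟩ := hK X M t
      by_cases ht : 5 < |t|
      · have hKa : K t = 0 := hz ht
        rw [hKa, mul_zero, norm_zero]
        apply Set.indicator_nonneg
        intro b _
        have h1 := K1_Rnn J N b
        have h2 := K1_Snn X M b
        positivity
      · have hmem : t ∈ Set.Icc (-5 : ℝ) 5 := by
          rw [not_lt, abs_le] at ht
          exact ht
        have he : ‖Complex.exp (-(((u * t : ℝ) : ℂ) * I))‖ = 1 := by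
          rw [show -(((u * t : ℝ) : ℂ) * I) = ((-(u * t) : ℝ) : ℂ) * I by push_cast; ring]
          exact Complex.norm_exp_ofReal_mul_I _
        rw [Set.indicator_of_mem hmem, norm_mul, norm_mul, he, one_mul]
        apply mul_le_mul (hrF t (not_lt.mp ht)) hb (norm_nonneg _)
        have h1 := K1_Rnn J N t
        positivity
  refine hbound.trans (le_of_eq ?_)
  rw [← intervalIntegral.integral_const_mul]
  apply intervalIntegral.integral_congr
  intro t _
  simp only
  ring

/-- comparable pairs -/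
noncomputable def K1_S1 (X : ℝ) (M : ℕ) (t : ℝ) : ℝ :=
  ∑ m ∈ Finset.Icc 1 M, ∑ m' ∈ Finset.Icc 1 M,
    (if m < 512 * m' ∧ m' < 512 * m then kap (X * ((m : ℝ) * Real.exp t - m')) else 0)

/-- the others -/
noncomputable def K1_S2 (X : ℝ) (M : ℕ) (t : ℝ) : ℝ :=
  ∑ m ∈ Finset.Icc 1 M, ∑ m' ∈ Finset.Icc 1 M,
    ((if m < 512 * m' ∧ m' < 512 * m then 0 else kap (X * ((m : ℝ) * Real.exp t - m'))) +
      kap (X * ((m : ℝ) * Real.exp t + m')))

theorem K1_split (X : ℝ) (M : ℕ) (t : ℝ) : K1_S X M t = 2 * (K1_S1 X M t + K1_S2 X M t) := by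
  unfold K1_S K1_S1 K1_S2
  rw [RFS_sum]
  simp_rw [RFS_sum]
  rw [← Finset.sum_add_distrib, Finset.mul_sum]
  apply Finset.sum_congr rfl
  intro m _
  rw [← Finset.sum_add_distrib, ← Finset.sum_add_distrib, Finset.mul_sum]
  apply Finset.sum_congr rfl
  intro m' _
  have e1 : kap (X * (((-(m : ℤ) : ℤ) : ℝ) * Real.exp t - ((-(m' : ℤ) : ℤ) : ℝ))) =
      kap (X * ((m : ℝ) * Real.exp t - m')) := by
    rw [← RFS_kap_neg]
    congr 1
    push_cast
    ring
  have e2 : kap (X * (((-(m : ℤ) : ℤ) : ℝ) * Real.exp t - (((m' : ℤ) : ℤ) : ℝ))) =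
      kap (X * ((m : ℝ) * Real.exp t + m')) := by
    rw [← RFS_kap_neg]
    congr 1
    push_cast
    ring
  have e3 : kap (X * ((((m : ℤ) : ℤ) : ℝ) * Real.exp t - ((-(m' : ℤ) : ℤ) : ℝ))) =
      kap (X * ((m : ℝ) * Real.exp t + m')) := by
    congr 1
    push_cast
    ring
  have e4 : kap (X * ((((m : ℤ) : ℤ) : ℝ) * Real.exp t - (((m' : ℤ) : ℤ) : ℝ))) =
      kap (X * ((m : ℝ) * Real.exp t - m')) := by
    congr 1
  rw [e1, e2, e3, e4]
  split_ifs <;> ring

theorem K1_S1cont (X : ℝ) (M : ℕ) : Continuous (K1_S1 X M) := by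
  have hk := RFS_kap_cont
  unfold K1_S1
  apply continuous_finsetSum
  intro n _
  apply continuous_finsetSum
  intro n' _
  split_ifs
  · exact hk.comp (by fun_prop)
  · exact continuous_const

theorem K1_S2cont (X : ℝ) (M : ℕ) : Continuous (K1_S2 X M) := by
  have hk := RFS_kap_cont
  unfold K1_S2
  apply continuous_finsetSum
  intro n _
  apply continuous_finsetSum
  intro n' _
  refine Continuous.add ?_ (hk.comp (by fun_prop))
  split_ifs
  · exact continuous_const
  · exact hk.comp (by fun_prop)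

/-- the part of the comparable pairs -/
theorem K1_part1 (hA : K1A_stmt) (hD : DVC_stmt) (J N M : ℕ) (X κ D : ℝ) (hN : 1 ≤ N)
    (hNX : (N : ℝ) ≤ X) (hJ : 1 ≤ J) (hκ : 0 < κ) (hκ1 : κ ≤ 1) (hκJ : κ * (X * M) ≤ J)
    (hD0 : 0 ≤ D) (hDd : ∀ k : ℕ, 1 ≤ k → k ≤ 2 * N * M → d k ≤ D) :
    ∫ t in (-5 : ℝ)..5, (J * K1_R J N t) * K1_S1 X M t ≤
      20 * (N * M * D * (1 + 4 / (Real.exp (-5) * κ / 1024) ^ 2)) := by
  have hc : 0 < Real.exp (-5) * κ / 1024 := by positivity
  have hd := hD N M (Real.exp (-5) * κ / 1024) D hc hD0 hDd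
  have hk := RFS_kap_cont
  have hkey : ∫ t in (-5 : ℝ)..5, (J * K1_R J N t) * K1_S1 X M t =
      ∑ n ∈ Finset.Ioc N (2 * N), ∑ n' ∈ Finset.Ioc N (2 * N), ∑ m ∈ Finset.Icc 1 M,
        ∑ m' ∈ Finset.Icc 1 M, ∫ t in (-5 : ℝ)..5,
        (J * kap (J * (t - (Real.log n - Real.log n')))) *
        (if m < 512 * m' ∧ m' < 512 * m then kap (X * ((m : ℝ) * Real.exp t - m')) else 0) := by
    have hcont : ∀ n n' m m' : ℕ, Continuous (fun t : ℝ =>
        ((J : ℝ) * kap (J * (t - (Real.log n - Real.log n')))) *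
        (if m < 512 * m' ∧ m' < 512 * m then kap (X * ((m : ℝ) * Real.exp t - m')) else 0)) := by
      intro n n' m m'
      refine Continuous.mul (continuous_const.mul (hk.comp (by fun_prop))) ?_
      split_ifs
      · exact hk.comp (by fun_prop)
      · exact continuous_const
    have e1 : ∀ t : ℝ, ((J : ℝ) * K1_R J N t) * K1_S1 X M t =
        ∑ n ∈ Finset.Ioc N (2 * N), ∑ n' ∈ Finset.Ioc N (2 * N), ∑ m ∈ Finset.Icc 1 M,
        ∑ m' ∈ Finset.Icc 1 M,
        (J * kap (J * (t - (Real.log n - Real.log n')))) *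
        (if m < 512 * m' ∧ m' < 512 * m then kap (X * ((m : ℝ) * Real.exp t - m')) else 0) := by
      intro t
      have hR0 : (J : ℝ) * K1_R J N t = ∑ n ∈ Finset.Ioc N (2 * N), ∑ n' ∈ Finset.Ioc N (2 * N),
          (J : ℝ) * kap (J * (t - (Real.log n - Real.log n'))) := by
        unfold K1_R
        rw [Finset.mul_sum]
        apply Finset.sum_congr rfl
        intro n _
        rw [Finset.mul_sum]
      rw [hR0, Finset.sum_mul]
      apply Finset.sum_congr rfl
      intro n _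
      rw [Finset.sum_mul]
      apply Finset.sum_congr rfl
      intro n' _
      unfold K1_S1
      rw [Finset.mul_sum]
      apply Finset.sum_congr rfl
      intro m _
      rw [Finset.mul_sum]
    simp_rw [e1]
    rw [intervalIntegral.integral_finsetSum]
    · apply Finset.sum_congr rfl
      intro n _
      rw [intervalIntegral.integral_finsetSum]
      · apply Finset.sum_congr rfl
        intro n' _
        rw [intervalIntegral.integral_finsetSum]
        · apply Finset.sum_congr rfl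
          intro m _
          rw [intervalIntegral.integral_finsetSum]
          intro m' _
          exact (hcont n n' m m').intervalIntegrable _ _
        · intro m _
          apply Continuous.intervalIntegrable
          exact continuous_finsetSum _ fun m' _ => hcont n n' m m'
      · intro n' _
        apply Continuous.intervalIntegrable
        exact continuous_finsetSum _ fun m _ => continuous_finsetSum _ fun m' _ => hcont n n' m m'
    · intro n _
      apply Continuous.intervalIntegrable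
      exact continuous_finsetSum _ fun n' _ => continuous_finsetSum _ fun m _ =>
        continuous_finsetSum _ fun m' _ => hcont n n' m m'
  rw [hkey]
  have h20 : (∑ n ∈ Finset.Ioc N (2 * N), ∑ n' ∈ Finset.Ioc N (2 * N), ∑ m ∈ Finset.Icc 1 M,
        ∑ m' ∈ Finset.Icc 1 M, ∫ t in (-5 : ℝ)..5,
        (J * kap (J * (t - (Real.log n - Real.log n')))) *
        (if m < 512 * m' ∧ m' < 512 * m then kap (X * ((m : ℝ) * Real.exp t - m')) else 0)) ≤
      ∑ n ∈ Finset.Ioc N (2 * N), ∑ n' ∈ Finset.Ioc N (2 * N), ∑ m ∈ Finset.Icc 1 M,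
        ∑ m' ∈ Finset.Icc 1 M, 20 * kap (Real.exp (-5) * κ / 1024 * ((n : ℝ) * m - n' * m')) := by
    apply Finset.sum_le_sum
    intro n hn
    apply Finset.sum_le_sum
    intro n' hn'
    apply Finset.sum_le_sum
    intro m hm
    apply Finset.sum_le_sum
    intro m' hm'
    rw [Finset.mem_Ioc] at hn hn'
    rw [Finset.mem_Icc] at hm hm'
    by_cases hcm : m < 512 * m' ∧ m' < 512 * m
    · have hh := hA J N M m m' n n' X κ hN hNX hJ hκ hκ1 hκJ hm.1 hm.2 hm'.1 hm'.2 hcm.1 hcm.2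
        hn.1 hn.2 hn'.1 hn'.2
      rw [← intervalIntegral.integral_const_mul] at hh
      refine le_trans (le_of_eq ?_) hh
      apply intervalIntegral.integral_congr
      intro t _
      simp only
      rw [if_pos hcm]
      ring
    · have : (∫ t in (-5 : ℝ)..5,
        ((J : ℝ) * kap (J * (t - (Real.log n - Real.log n')))) *
        (if m < 512 * m' ∧ m' < 512 * m then kap (X * ((m : ℝ) * Real.exp t - m')) else 0)) = 0 := by
        simp only [if_neg hcm, mul_zero, intervalIntegral.integral_zero]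
      rw [this]
      have := RFS_kap_nonneg (Real.exp (-5) * κ / 1024 * ((n : ℝ) * m - n' * m'))
      positivity
  refine h20.trans ?_
  simp_rw [← Finset.mul_sum]
  exact mul_le_mul_of_nonneg_left hd (by norm_num)

/-- the part of the other pairs -/
theorem K1_part2 (J N M : ℕ) (X B : ℝ) (hJ : 1 ≤ J) (hB : ∀ t : ℝ, |t| ≤ 5 → X ^ 2 * K1_S2 X M t ≤ B) :
    ∫ t in (-5 : ℝ)..5, (J * K1_R J N t) * (X ^ 2 * K1_S2 X M t) ≤ B * (4 * (N : ℝ) ^ 2) := by
  have hk := RFS_kap_cont
  have hJr : (0 : ℝ) < J := by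
    have : 0 < J := by omega
    exact_mod_cast this
  have hB0 : 0 ≤ B := by
    refine le_trans ?_ (hB 0 (by norm_num))
    have : 0 ≤ K1_S2 X M 0 := by
      unfold K1_S2
      apply Finset.sum_nonneg
      intro m _
      apply Finset.sum_nonneg
      intro m' _
      have h1 := RFS_kap_nonneg (X * ((m : ℝ) * Real.exp 0 + m'))
      have h2 := RFS_kap_nonneg (X * ((m : ℝ) * Real.exp 0 - m'))
      split_ifs <;> linarith
    positivity
  have h1 : ∫ t in (-5 : ℝ)..5, (J * K1_R J N t) * (X ^ 2 * K1_S2 X M t) ≤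
      ∫ t in (-5 : ℝ)..5, (J * K1_R J N t) * B := by
    apply intervalIntegral.integral_mono_on (by norm_num)
    · apply Continuous.intervalIntegrable
      have h1 := K1_Rcont J N
      have h2 := K1_S2cont X M
      fun_prop
    · apply Continuous.intervalIntegrable
      have h1 := K1_Rcont J N
      fun_prop
    · intro t ht
      have := K1_Rnn J N t
      apply mul_le_mul_of_nonneg_left _ (by positivity)
      apply hB
      rw [abs_le]
      exact ht
  refine h1.trans ?_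
  rw [intervalIntegral.integral_mul_const, mul_comm]
  apply mul_le_mul_of_nonneg_left _ hB0
  have hcont : ∀ n n' : ℕ, Continuous (fun t : ℝ =>
      (J : ℝ) * kap (J * (t - (Real.log n - Real.log n')))) := by
    intro n n'
    exact continuous_const.mul (hk.comp (by fun_prop))
  have e1 : ∀ t : ℝ, (J : ℝ) * K1_R J N t = ∑ n ∈ Finset.Ioc N (2 * N), ∑ n' ∈ Finset.Ioc N (2 * N),
      (J : ℝ) * kap (J * (t - (Real.log n - Real.log n'))) := by
    intro t
    unfold K1_R
    rw [Finset.mul_sum]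
    apply Finset.sum_congr rfl
    intro n _
    rw [Finset.mul_sum]
  simp_rw [e1]
  rw [intervalIntegral.integral_finsetSum]
  · have h2 : ∀ n ∈ Finset.Ioc N (2 * N), (∫ t in (-5 : ℝ)..5, ∑ n' ∈ Finset.Ioc N (2 * N),
        (J : ℝ) * kap (J * (t - (Real.log n - Real.log n')))) ≤ N * 4 := by
      intro n _
      rw [intervalIntegral.integral_finsetSum]
      · have h3 : ∀ n' ∈ Finset.Ioc N (2 * N), (∫ t in (-5 : ℝ)..5,
            (J : ℝ) * kap (J * (t - (Real.log n - Real.log n')))) ≤ 4 := by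
          intro n' _
          rw [intervalIntegral.integral_const_mul]
          exact K1_kint J _ hJr
        refine (Finset.sum_le_sum h3).trans ?_
        rw [Finset.sum_const, Nat.card_Ioc, nsmul_eq_mul]
        have : 2 * N - N = N := by omega
        rw [this]
      · intro n' _
        exact (hcont n n').intervalIntegrable _ _
    refine (Finset.sum_le_sum h2).trans ?_
    rw [Finset.sum_const, Nat.card_Ioc, nsmul_eq_mul]
    have : 2 * N - N = N := by omega
    rw [this]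
    apply le_of_eq
    ring
  · intro n _
    apply Continuous.intervalIntegrable
    exact continuous_finsetSum _ fun n' _ => hcont n n'

theorem K1 (hF : FEJ_stmt) (hR : RF0_stmt) (hQ : QDW_stmt) (hK : K2B_stmt) (hG : GEC_stmt)
    (hD : DVC_stmt) (hA : K1A_stmt) (hB : K1B_stmt) : K1_stmt := by
  intro ε δ hε hδ hδ1
  obtain ⟨C1, hC1, h1⟩ := K1_step1 hF hR hQ hG hK
  obtain ⟨C3, hC3, h3⟩ := hB
  obtain ⟨Cd, hCd, hdb⟩ := divisor_bound (ε / 2) (by positivity)
  set A1 : ℝ := 20 * (Cd * 2 ^ (ε / 2)) * (1 + 4 * (1024 * Real.exp 5) ^ 2) with hA1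
  set A2 : ℝ := 4 * (C3 * (1 + 2 / ε)) with hA2
  have hA1p : 0 < A1 := by positivity
  have hA2p : 0 < A2 := by positivity
  refine ⟨C1 * (2 * (A1 + A2)), by positivity, ?_⟩
  intro J N M X u a hN hNJ hNX hMX ha
  have hJ : 1 ≤ J := hN.trans hNJ
  have hJr : (1 : ℝ) ≤ J := by exact_mod_cast hJ
  have hJ0 : (0 : ℝ) < J := by linarith
  have hNr : (1 : ℝ) ≤ N := by exact_mod_cast hN
  have hNJr : (N : ℝ) ≤ J := by exact_mod_cast hNJ
  have hX1 : 1 ≤ X := hNr.trans hNX
  have hX0 : 0 < X := by linarith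
  have hb := h1 J N M X u a hN hJ ha
  refine hb.trans ?_
  have hRcont := K1_Rcont J N
  have hS1cont := K1_S1cont X M
  have hS2cont := K1_S2cont X M
  rcases Nat.eq_zero_or_pos M with hM | hM
  · have hS : ∀ t, K1_S X M t = 0 := by
      intro t
      unfold K1_S MM
      rw [hM]
      simp
    simp only [hS, mul_zero, intervalIntegral.integral_zero]
    positivity
  have hM1 : (1 : ℝ) ≤ M := by exact_mod_cast hM
  have hJ2 : (J : ℝ) ^ (1 + δ) ≤ (J : ℝ) ^ (2 : ℝ) :=
    Real.rpow_le_rpow_of_exponent_le hJr (by linarith)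
  have hMJ2 : (M : ℝ) ≤ (J : ℝ) ^ (2 : ℝ) := by
    refine le_trans ?_ (hMX.trans hJ2)
    nlinarith
  -- the integral
  have hsplit : ∫ t in (-5 : ℝ)..5, (J * K1_R J N t) * (X ^ 2 * K1_S X M t) =
      2 * (X ^ 2 * (∫ t in (-5 : ℝ)..5, (J * K1_R J N t) * K1_S1 X M t) +
        ∫ t in (-5 : ℝ)..5, (J * K1_R J N t) * (X ^ 2 * K1_S2 X M t)) := by
    rw [← intervalIntegral.integral_const_mul, ← intervalIntegral.integral_add,
      ← intervalIntegral.integral_const_mul]
    · apply intervalIntegral.integral_congr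
      intro t _
      simp only
      rw [K1_split]
      ring
    · apply Continuous.intervalIntegrable
      fun_prop
    · apply Continuous.intervalIntegrable
      fun_prop
  rw [hsplit]
  -- constants
  set κ : ℝ := (J : ℝ) ^ (-δ) with hκ
  have hκ0 : 0 < κ := Real.rpow_pos_of_pos hJ0 _
  have hκ1 : κ ≤ 1 := Real.rpow_le_one_of_one_le_of_nonpos hJr (by linarith)
  have hκJ : κ * (X * M) ≤ J := by
    calc κ * (X * M) = κ * (M * X) := by ring
      _ ≤ κ * (J : ℝ) ^ (1 + δ) := mul_le_mul_of_nonneg_left hMX hκ0.le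
      _ = J := by
          rw [hκ, ← Real.rpow_add hJ0]
          rw [show -δ + (1 + δ) = 1 by ring, Real.rpow_one]
  have hJε : (1 : ℝ) ≤ (J : ℝ) ^ ε := Real.one_le_rpow hJr hε.le
  have hJε4 : (J : ℝ) ^ ε ≤ (J : ℝ) ^ (ε + 4 * δ) :=
    Real.rpow_le_rpow_of_exponent_le hJr (by linarith)
  set D : ℝ := Cd * 2 ^ (ε / 2) * (J : ℝ) ^ ε with hDd
  have hD0 : 0 ≤ D := by positivity
  have hDb : ∀ k : ℕ, 1 ≤ k → k ≤ 2 * N * M → d k ≤ D := by
    intro k hk hk2
    refine (hdb k hk).trans ?_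
    rw [hDd, mul_assoc]
    apply mul_le_mul_of_nonneg_left _ hCd.le
    have hkr : (k : ℝ) ≤ 2 * (J : ℝ) ^ (2 : ℝ) := by
      calc (k : ℝ) ≤ 2 * N * M := by exact_mod_cast hk2
        _ = 2 * (M * N) := by ring
        _ ≤ 2 * (M * X) := by
            apply mul_le_mul_of_nonneg_left _ (by norm_num)
            exact mul_le_mul_of_nonneg_left hNX (by linarith)
        _ ≤ 2 * (J : ℝ) ^ (2 : ℝ) := by
            apply mul_le_mul_of_nonneg_left _ (by norm_num)
            exact hMX.trans hJ2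
    calc (k : ℝ) ^ (ε / 2) ≤ (2 * (J : ℝ) ^ (2 : ℝ)) ^ (ε / 2) :=
          Real.rpow_le_rpow (by positivity) hkr (by positivity)
      _ = 2 ^ (ε / 2) * (J : ℝ) ^ ε := by
          rw [Real.mul_rpow (by norm_num) (by positivity), ← Real.rpow_mul hJ0.le]
          congr 2
          ring
  have hp1 := K1_part1 hA hD J N M X κ D hN hNX hJ hκ0 hκ1 hκJ hD0 hDb
  -- part 2
  have hlog : 1 + Real.log M ≤ (1 + 2 / ε) * (J : ℝ) ^ ε := by
    have h4 : Real.log M ≤ (M : ℝ) ^ (ε / 2) / (ε / 2) :=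
      Real.log_le_rpow_div (by linarith) (by positivity)
    have h5 : (M : ℝ) ^ (ε / 2) ≤ (J : ℝ) ^ ε := by
      calc (M : ℝ) ^ (ε / 2) ≤ ((J : ℝ) ^ (2 : ℝ)) ^ (ε / 2) :=
            Real.rpow_le_rpow (by positivity) hMJ2 (by positivity)
        _ = (J : ℝ) ^ ε := by
            rw [← Real.rpow_mul hJ0.le]
            congr 1
            ring
    have h6 : (M : ℝ) ^ (ε / 2) / (ε / 2) ≤ 2 / ε * (J : ℝ) ^ ε := by
      rw [div_le_iff₀ (by positivity)]
      refine h5.trans (le_of_eq ?_)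
      field_simp
    linarith
  have hp2 := K1_part2 J N M X (C3 * ((1 + 2 / ε) * (J : ℝ) ^ ε)) hJ (by
    intro t ht
    exact (h3 X t M hX0 ht hM).trans (mul_le_mul_of_nonneg_left hlog hC3.le))
  -- estimate part 1
  have hcc : 1 + 4 / (Real.exp (-5) * κ / 1024) ^ 2 ≤
      (1 + 4 * (1024 * Real.exp 5) ^ 2) * (J : ℝ) ^ (2 * δ) := by
    have e1 : 4 / (Real.exp (-5) * κ / 1024) ^ 2 = 4 * (1024 * Real.exp 5) ^ 2 * (κ⁻¹) ^ 2 := by
      rw [Real.exp_neg]
      have := (Real.exp_pos 5).ne'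
      field_simp
    have e2 : (κ⁻¹) ^ 2 = (J : ℝ) ^ (2 * δ) := by
      rw [hκ, ← Real.rpow_neg hJ0.le, neg_neg, ← Real.rpow_natCast, ← Real.rpow_mul hJ0.le]
      congr 1
      push_cast
      ring
    rw [e1, e2]
    have e3 : (1 : ℝ) ≤ (J : ℝ) ^ (2 * δ) := Real.one_le_rpow hJr (by positivity)
    nlinarith [e3]
  have hq1 : X ^ 2 * (∫ t in (-5 : ℝ)..5, (J * K1_R J N t) * K1_S1 X M t) ≤
      A1 * (J : ℝ) ^ (ε + 4 * δ) * (X * J * N) := by
    calc X ^ 2 * (∫ t in (-5 : ℝ)..5, (J * K1_R J N t) * K1_S1 X M t)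
        ≤ X ^ 2 * (20 * (N * M * D * (1 + 4 / (Real.exp (-5) * κ / 1024) ^ 2))) :=
          mul_le_mul_of_nonneg_left hp1 (by positivity)
      _ ≤ X ^ 2 * (20 * (N * M * D * ((1 + 4 * (1024 * Real.exp 5) ^ 2) * (J : ℝ) ^ (2 * δ)))) := by
          apply mul_le_mul_of_nonneg_left _ (by positivity)
          apply mul_le_mul_of_nonneg_left _ (by norm_num)
          exact mul_le_mul_of_nonneg_left hcc (by positivity)
      _ = A1 * ((J : ℝ) ^ ε * (J : ℝ) ^ (2 * δ)) * (X * N) * (M * X) := by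
          rw [hDd, hA1]
          ring
      _ ≤ A1 * ((J : ℝ) ^ ε * (J : ℝ) ^ (2 * δ)) * (X * N) * (J : ℝ) ^ (1 + δ) :=
          mul_le_mul_of_nonneg_left hMX (by positivity)
      _ = A1 * (J : ℝ) ^ (ε + 3 * δ) * (X * J * N) := by
          have : (J : ℝ) ^ (ε + 3 * δ) * J = (J : ℝ) ^ ε * (J : ℝ) ^ (2 * δ) * (J : ℝ) ^ (1 + δ) := by
            rw [← Real.rpow_add hJ0, ← Real.rpow_add hJ0, ← Real.rpow_add_one hJ0.ne']
            congr 1
            ring
          linear_combination (A1 * X * N) * (-this)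
      _ ≤ A1 * (J : ℝ) ^ (ε + 4 * δ) * (X * J * N) := by
          apply mul_le_mul_of_nonneg_right _ (by positivity)
          apply mul_le_mul_of_nonneg_left _ hA1p.le
          exact Real.rpow_le_rpow_of_exponent_le hJr (by linarith)
  have hq2 : ∫ t in (-5 : ℝ)..5, (J * K1_R J N t) * (X ^ 2 * K1_S2 X M t) ≤
      A2 * (J : ℝ) ^ (ε + 4 * δ) * (X * J * N) := by
    refine hp2.trans ?_
    calc C3 * ((1 + 2 / ε) * (J : ℝ) ^ ε) * (4 * (N : ℝ) ^ 2) = A2 * (J : ℝ) ^ ε * (N : ℝ) ^ 2 := by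
          rw [hA2]
          ring
      _ ≤ A2 * (J : ℝ) ^ (ε + 4 * δ) * (X * J * N) := by
          apply mul_le_mul _ _ (by positivity) (by positivity)
          · exact mul_le_mul_of_nonneg_left hJε4 hA2p.le
          · have : (N : ℝ) ^ 2 ≤ X * N := by nlinarith
            refine this.trans ?_
            have h7 : 0 ≤ X * N := by positivity
            nlinarith
  calc C1 * (2 * (X ^ 2 * (∫ t in (-5 : ℝ)..5, (J * K1_R J N t) * K1_S1 X M t) +
        ∫ t in (-5 : ℝ)..5, (J * K1_R J N t) * (X ^ 2 * K1_S2 X M t)))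
      ≤ C1 * (2 * (A1 * (J : ℝ) ^ (ε + 4 * δ) * (X * J * N) +
          A2 * (J : ℝ) ^ (ε + 4 * δ) * (X * J * N))) := by
        apply mul_le_mul_of_nonneg_left _ hC1.le
        apply mul_le_mul_of_nonneg_left _ (by norm_num)
        exact add_le_add hq1 hq2
    _ = C1 * (2 * (A1 + A2)) * (J : ℝ) ^ (ε + 4 * δ) * (X * J * N) := by ring

end Pool.Agent.LW
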